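import Mathlib

/-!
Sequence part: the sequence `D (n+1) = 4 * D n + max (2 * d n) (d (n+1))` is not covered by
finitely many constant-coefficient linear recurrence sequences.
-/

namespace Pool.Agent.Lib.MP_3d9fc2_ag

open Finset

/-- The shift operator on complex sequences. -/
def shift : (ℕ → ℂ) →ₗ[ℂ] (ℕ → ℂ) where
  toFun x := fun n => x (n + 1)
  map_add' _ _ := rfl
  map_smul' _ _ := rfl

lemma shift_apply (x : ℕ → ℂ) (n : ℕ) : shift x n = x (n + 1) := rfl

lemma shift_pow_apply (x : ℕ → ℂ) (k n : ℕ) : (shift ^ k) x n = x (n + k) := by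
  induction k generalizing x with
  | zero => rfl
  | succ k ih =>
    rw [pow_succ, Module.End.mul_apply, ih, shift_apply]
    congr 1

variable {V : Submodule ℂ (ℕ → ℂ)}

lemma shift_pow_mem (hV : ∀ x ∈ V, shift x ∈ V) (k : ℕ) {x : ℕ → ℂ} (hx : x ∈ V) :
    (shift ^ k) x ∈ V := by
  induction k generalizing x with
  | zero => simpa using hx
  | succ k ih =>
    rw [pow_succ, Module.End.mul_apply]
    exact ih (hV x hx)

/-- A sequence of a finite-dimensional shift-stable space which vanishes on a long arithmetic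
progression vanishes on the whole progression. -/
lemma vanish_of_long [FiniteDimensional ℂ V] (hV : ∀ x ∈ V, shift x ∈ V) {x : ℕ → ℂ} (hx : x ∈ V)
    (a b : ℕ) (h : ∀ s < Module.finrank ℂ V, x (b + a * s) = 0) : ∀ s, x (b + a * s) = 0 := by
  set T : V →ₗ[ℂ] V := (shift ^ a).restrict (fun y hy => shift_pow_mem hV a hy) with hT
  have hTval : ∀ (s : ℕ) (y : V), ((T ^ s) y : ℕ → ℂ) = ((shift ^ a) ^ s) (y : ℕ → ℂ) := by
    intro s
    induction s with
    | zero => intro y; rfl
    | succ s ih =>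
      intro y
      rw [pow_succ, Module.End.mul_apply, ih, pow_succ, Module.End.mul_apply]
      rfl
  let y : V := ⟨(shift ^ b) x, shift_pow_mem hV b hx⟩
  have hval : ∀ s, ((T ^ s) y : ℕ → ℂ) 0 = x (b + a * s) := by
    intro s
    rw [hTval, ← pow_mul]
    change (shift ^ (a * s)) ((shift ^ b) x) 0 = _
    rw [shift_pow_apply, shift_pow_apply]
    congr 1
    ring
  have hch := LinearMap.aeval_self_charpoly T
  have hdeg : T.charpoly.natDegree = Module.finrank ℂ V := LinearMap.charpoly_natDegree T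
  have hmonic : T.charpoly.Monic := LinearMap.charpoly_monic T
  set k := Module.finrank ℂ V with hk
  have hrec : ∀ s, x (b + a * (s + k)) =
      - ∑ j ∈ range k, T.charpoly.coeff j * x (b + a * (s + j)) := by
    intro s
    have h1 : (Polynomial.aeval T T.charpoly) ((T ^ s) y) = 0 := by rw [hch]; rfl
    rw [Polynomial.aeval_eq_sum_range, hdeg, Finset.sum_range_succ] at h1
    have hlead : T.charpoly.coeff k = 1 := by
      rw [← hdeg]; exact hmonic
    rw [hlead, one_smul] at h1
    have h2 := congrArg (fun z : V => (z : ℕ → ℂ) 0) h1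
    simp only [LinearMap.add_apply, LinearMap.sum_apply, LinearMap.smul_apply,
      Submodule.coe_add, Submodule.coe_sum, Submodule.coe_smul, Pi.add_apply,
      Finset.sum_apply, Pi.smul_apply, Submodule.coe_zero, Pi.zero_apply, smul_eq_mul] at h2
    have h3 : ∀ j, ((T ^ j) ((T ^ s) y) : ℕ → ℂ) 0 = x (b + a * (s + j)) := by
      intro j
      rw [← Module.End.mul_apply, ← pow_add, hval, add_comm j s]
    simp only [h3] at h2
    rw [eq_neg_iff_add_eq_zero, add_comm]
    exact h2
  intro s
  induction s using Nat.strong_induction_on with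
  | _ s ih =>
    rcases lt_or_ge s k with hs | hs
    · exact h s hs
    · obtain ⟨s', rfl⟩ := Nat.exists_eq_add_of_le' hs
      rw [hrec s']
      rw [neg_eq_zero]
      apply Finset.sum_eq_zero
      intro j hj
      rw [ih (s' + j) (by have := Finset.mem_range.mp hj; omega), mul_zero]

/-- A uniform modulus: in a finite-dimensional space of sequences there is `M ≥ 1` such that
vanishing on the multiples of any `a ≥ 1` implies vanishing on the multiples of `M`. -/
lemma exists_modulus [FiniteDimensional ℂ V] :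
    ∃ M : ℕ, 1 ≤ M ∧ ∀ a : ℕ, 1 ≤ a → ∀ x ∈ V, (∀ s, x (a * s) = 0) → ∀ s, x (M * s) = 0 := by
  classical
  let W : ℕ → Submodule ℂ V := fun a =>
    { carrier := {x | ∀ s, (x : ℕ → ℂ) (a * s) = 0}
      add_mem' := by
        intro x y hx hy s
        simp only [Submodule.coe_add, Pi.add_apply]
        rw [hx s, hy s, add_zero]
      zero_mem' := by intro s; rfl
      smul_mem' := by
        intro c x hx s
        simp only [Submodule.coe_smul, Pi.smul_apply]
        rw [hx s, smul_zero] }
  have hbdd : ∀ a, Module.finrank ℂ (W a) ≤ Module.finrank ℂ V := fun a =>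
    Submodule.finrank_le _
  -- choose M ≥ 1 maximizing the dimension
  obtain ⟨M, hM1, hMmax⟩ : ∃ M, 1 ≤ M ∧ ∀ a, 1 ≤ a →
      Module.finrank ℂ (W a) ≤ Module.finrank ℂ (W M) := by
    have hex : ∃ d, ∃ M, 1 ≤ M ∧ Module.finrank ℂ (W M) = d := ⟨_, 1, le_refl _, rfl⟩
    let d := Nat.findGreatest (fun d => ∃ M, 1 ≤ M ∧ Module.finrank ℂ (W M) = d)
      (Module.finrank ℂ V)
    have hd : ∃ M, 1 ≤ M ∧ Module.finrank ℂ (W M) = d :=
      Nat.findGreatest_spec (P := fun d => ∃ M, 1 ≤ M ∧ Module.finrank ℂ (W M) = d)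
        (hbdd 1) ⟨1, le_refl _, rfl⟩
    obtain ⟨M, hM, hMd⟩ := hd
    refine ⟨M, hM, fun a ha => ?_⟩
    rw [hMd]
    exact Nat.le_findGreatest (hbdd a) ⟨a, ha, rfl⟩
  refine ⟨M, hM1, fun a ha x hx hxa s => ?_⟩
  have hle1 : W M ≤ W (a * M) := by
    intro y hy s
    have := hy (a * s)
    rw [show a * M * s = M * (a * s) by ring]
    exact this
  have hle2 : W a ≤ W (a * M) := by
    intro y hy s
    have := hy (M * s)
    rw [show a * M * s = a * (M * s) by ring]
    exact this
  have heq : W M = W (a * M) :=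
    Submodule.eq_of_le_of_finrank_le hle1 (hMmax _ (Nat.mul_pos ha hM1))
  have hxW : (⟨x, hx⟩ : V) ∈ W a := hxa
  have hxM : (⟨x, hx⟩ : V) ∈ W M := by rw [heq]; exact hle2 hxW
  exact hxM s

/-! ### The sign pattern of `w` -/

section Sign

variable {w : ℕ → ℤ}

/-- coefficients of `ζ ^ P = u + v ζ` for `ζ ^ 2 = - ζ - 2`. -/
def uv : ℕ → ℤ × ℤ
  | 0 => (1, 0)
  | n + 1 => (-2 * (uv n).2, (uv n).1 - (uv n).2)

lemma uv_norm (P : ℕ) : (uv P).1 ^ 2 - (uv P).1 * (uv P).2 + 2 * (uv P).2 ^ 2 = 2 ^ P := by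
  induction P with
  | zero => simp [uv]
  | succ P ih =>
    simp only [uv]
    have h2 : (2 : ℤ) ^ (P + 1) = 2 * 2 ^ P := by ring
    rw [h2, ← ih]
    ring

lemma uv_odd (P : ℕ) : Odd (uv (P + 1)).2 ∧ Even (uv (P + 1)).1 := by
  induction P with
  | zero => simp [uv]
  | succ P ih =>
    obtain ⟨h1, h2⟩ := ih
    constructor
    · rw [uv]
      simp only
      rw [Int.odd_sub]
      constructor
      · intro h
        exact absurd h2 (Int.not_even_iff_odd.mpr h)
      · intro h
        exact absurd h1 (Int.not_odd_iff_even.mpr h)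
    · rw [uv]
      simp only
      exact ⟨-(uv (P + 1)).2, by ring⟩

lemma w_add (hw : ∀ n, w (n + 2) = - w (n + 1) - 2 * w n) (P n : ℕ) :
    w (n + P) = (uv P).1 * w n + (uv P).2 * w (n + 1) := by
  induction P generalizing n with
  | zero => simp [uv]
  | succ P ih =>
    have h1 : n + (P + 1) = (n + 1) + P := by ring
    rw [h1, ih (n + 1), show n + 1 + 1 = n + 2 from rfl, hw n]
    simp only [uv]
    ring

lemma w_two (hw : ∀ n, w (n + 2) = - w (n + 1) - 2 * w n) (P n : ℕ) :
    w (n + 2 * P) = (2 * (uv P).1 - (uv P).2) * w (n + P) - 2 ^ P * w n := by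
  have h1 : w (n + 2 * P) = (uv P).1 * w (n + P) + (uv P).2 * w (n + P + 1) := by
    rw [show n + 2 * P = (n + P) + P by ring]
    exact w_add hw P (n + P)
  have h2 : w (n + P + 1) = (uv P).1 * w (n + 1) + (uv P).2 * (- w (n + 1) - 2 * w n) := by
    rw [show n + P + 1 = (n + 1) + P by ring, w_add hw P (n + 1),
      show n + 1 + 1 = n + 2 from rfl, hw n]
  have h3 := w_add hw P n
  have h4 := uv_norm P
  rw [h1, h2, h3, ← h4]
  ring

/-- A real sequence with `y (j+2) = τ y (j+1) - Q y j`, `τ² + 7 ≤ 4 Q`, cannot stay positive. -/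
lemma not_all_pos (y : ℕ → ℝ) (τ Q : ℝ) (hQ : 0 < Q) (hτ : τ ^ 2 + 7 ≤ 4 * Q)
    (hy : ∀ j, y (j + 2) = τ * y (j + 1) - Q * y j) (J : ℕ) (hJ : 4 * Q + 3 ≤ J)
    (hpos : ∀ j ≤ J, 0 < y j) : False := by
  have hJ3 : (3 : ℝ) ≤ J := by linarith
  have hJ3' : 3 ≤ J := by exact_mod_cast hJ3
  have hτpos : 0 < τ := by
    by_contra hneg
    push Not at hneg
    have h2 := hpos 2 (by omega)
    rw [hy 0] at h2
    have h0 := hpos 0 (by omega)
    have h1 := hpos 1 (by omega)
    have : τ * y (0 + 1) ≤ 0 := mul_nonpos_of_nonpos_of_nonneg hneg h1.le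
    have : 0 < Q * y 0 := mul_pos hQ h0
    linarith
  let q : ℕ → ℝ := fun j => y (j + 1) / y j
  have hq : ∀ j, j + 1 ≤ J → 0 < q j := fun j hj => div_pos (hpos _ hj) (hpos _ (by omega))
  have hqrec : ∀ j, j + 2 ≤ J → q (j + 1) = τ - Q / q j := by
    intro j hj
    have h0 := hpos j (by omega)
    have h1 := hpos (j + 1) (by omega)
    simp only [q]
    rw [show j + 1 + 1 = j + 2 from rfl, hy j]
    field_simp
  have hqlt : ∀ j, j + 2 ≤ J → q (j + 1) < τ := by
    intro j hj
    rw [hqrec j hj]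
    have : 0 < Q / q j := div_pos hQ (hq j (by omega))
    linarith
  -- decrease
  have hdec : ∀ j, j + 3 ≤ J → q (j + 2) ≤ q (j + 1) - 7 / (4 * τ) := by
    intro j hj
    have hp := hq (j + 1) (by omega)
    have hl := hqlt j (by omega)
    rw [show j + 2 = (j + 1) + 1 from rfl, hqrec (j + 1) (by omega)]
    have h1 : 7 / 4 ≤ q (j + 1) ^ 2 - τ * q (j + 1) + Q := by
      nlinarith [sq_nonneg (q (j + 1) - τ / 2)]
    have h2 : 7 / (4 * τ) ≤ (7 / 4) / q (j + 1) := by
      rw [div_le_div_iff₀ (by positivity) hp]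
      nlinarith
    have h3 : (7 / 4) / q (j + 1) ≤ (q (j + 1) ^ 2 - τ * q (j + 1) + Q) / q (j + 1) :=
      div_le_div_of_nonneg_right h1 hp.le
    have h4 : (q (j + 1) ^ 2 - τ * q (j + 1) + Q) / q (j + 1) =
        q (j + 1) - τ + Q / q (j + 1) := by
      field_simp
    linarith
  have hall : ∀ j, j + 2 ≤ J → q (j + 1) ≤ τ - j * (7 / (4 * τ)) := by
    intro j
    induction j with
    | zero => intro hj; simpa using (hqlt 0 hj).le
    | succ j ih =>
      intro hj
      have h1 := ih (by omega)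
      have h2 := hdec j (by omega)
      rw [show j + 1 + 1 = j + 2 from rfl]
      push_cast
      linarith
  have hfin := hall (J - 2) (by omega)
  have hposfin := hq (J - 2 + 1) (by omega)
  have hcast : ((J - 2 : ℕ) : ℝ) = J - 2 := by
    rw [Nat.cast_sub (by omega)]; norm_num
  rw [hcast] at hfin
  have hkey : τ ≤ (J - 2) * (7 / (4 * τ)) := by
    rw [mul_div_assoc', le_div_iff₀ (by positivity)]
    nlinarith
  linarith

/-- No long window on which the sign pattern of `w` is `P`-periodic. -/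
lemma sign_aperiodic (hw : ∀ n, w (n + 2) = - w (n + 1) - 2 * w n) (hne : ∀ n, w n ≠ 0)
    (P : ℕ) (hP : 1 ≤ P) :
    ∃ K : ℕ, ∀ N : ℕ, ¬ ∀ n, N ≤ n → n < N + K → (0 < w (n + P) ↔ 0 < w n) := by
  set J : ℕ := 4 * 2 ^ P + 3 with hJ
  refine ⟨P * J + 1, fun N hN => ?_⟩
  obtain ⟨P', rfl⟩ : ∃ P', P = P' + 1 := ⟨P - 1, by omega⟩
  set τ : ℤ := 2 * (uv (P' + 1)).1 - (uv (P' + 1)).2 with hτ
  have hv := (uv_odd P').1
  have hv0 : (uv (P' + 1)).2 ≠ 0 := by
    intro h
    rw [h] at hv
    simp at hv
  have hv1 : 1 ≤ (uv (P' + 1)).2 ^ 2 := by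
    have := sq_pos_of_ne_zero hv0
    omega
  have hnorm := uv_norm (P' + 1)
  have hτ2 : τ ^ 2 + 7 ≤ 4 * 2 ^ (P' + 1) := by
    rw [← hnorm, hτ]
    nlinarith
  have hsame : ∀ j ≤ J, (0 < w (N + (P' + 1) * j) ↔ 0 < w N) := by
    intro j
    induction j with
    | zero => intro _; simp
    | succ j ih =>
      intro hj
      rw [← ih (by omega)]
      have := hN (N + (P' + 1) * j) (by omega) (by
        have : (P' + 1) * j < (P' + 1) * J := Nat.mul_lt_mul_of_pos_left (by omega) (by omega)
        omega)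
      rw [← this]
      rw [show N + (P' + 1) * (j + 1) = N + (P' + 1) * j + (P' + 1) by ring]
  have hrec : ∀ j, w (N + (P' + 1) * (j + 2)) =
      τ * w (N + (P' + 1) * (j + 1)) - 2 ^ (P' + 1) * w (N + (P' + 1) * j) := by
    intro j
    have := w_two hw (P' + 1) (N + (P' + 1) * j)
    rw [show N + (P' + 1) * (j + 2) = N + (P' + 1) * j + 2 * (P' + 1) by ring,
      show N + (P' + 1) * (j + 1) = N + (P' + 1) * j + (P' + 1) by ring]
    exact this
  have hτR : ((τ : ℝ)) ^ 2 + 7 ≤ 4 * (2 : ℝ) ^ (P' + 1) := by exact_mod_cast hτ2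
  have hJR : 4 * (2 : ℝ) ^ (P' + 1) + 3 ≤ (J : ℝ) := by
    rw [hJ]; push_cast; exact le_refl _
  rcases lt_or_gt_of_ne (hne N) with hneg | hpos
  · refine not_all_pos (fun j => -(w (N + (P' + 1) * j) : ℝ)) τ (2 ^ (P' + 1)) (by positivity)
      hτR ?_ J hJR ?_
    · intro j
      have := hrec j
      rw [this]
      push_cast
      ring
    · intro j hj
      have h1 : ¬ 0 < w (N + (P' + 1) * j) := by
        rw [hsame j hj]; omega
      have h2 := hne (N + (P' + 1) * j)
      have h3 : w (N + (P' + 1) * j) < 0 := by omega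
      have : (w (N + (P' + 1) * j) : ℝ) < 0 := by exact_mod_cast h3
      linarith
  · refine not_all_pos (fun j => (w (N + (P' + 1) * j) : ℝ)) τ (2 ^ (P' + 1)) (by positivity)
      hτR ?_ J hJR ?_
    · intro j
      have := hrec j
      rw [this]
      push_cast
      ring
    · intro j hj
      have h3 : 0 < w (N + (P' + 1) * j) := (hsame j hj).mpr hpos
      exact_mod_cast h3

end Sign

/-! ### The main sequence theorem -/

/-- `Rr d π n m`: the part of `D (n+m) - 4 ^ m * D n` prescribed by a sign pattern `π`. -/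
def Rr (d : ℕ → ℤ) (π : ℕ → Bool) (n : ℕ) : ℕ → ℤ
  | 0 => 0
  | m + 1 => 4 * Rr d π n m + (if π m then d (n + m + 1) else 2 * d (n + m))

lemma Rr_congr (d : ℕ → ℤ) {π π' : ℕ → Bool} (n m : ℕ) (h : ∀ t < m, π t = π' t) :
    Rr d π n m = Rr d π' n m := by
  induction m with
  | zero => rfl
  | succ m ih =>
    simp only [Rr]
    rw [ih (fun t ht => h t (by omega)), h m (by omega)]

lemma Rr_ne (d : ℕ → ℤ) (hodd : ∀ n, Odd (d (n + 1) - 2 * d n)) {π π' : ℕ → Bool} (n m : ℕ)
    (h : ∃ t < m, π t ≠ π' t) : Rr d π n m ≠ Rr d π' n m := by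
  induction m with
  | zero => obtain ⟨t, ht, _⟩ := h; omega
  | succ m ih =>
    simp only [Rr]
    by_cases hm : π m = π' m
    · obtain ⟨t, ht, hne⟩ := h
      have : ∃ t < m, π t ≠ π' t := by
        refine ⟨t, ?_, hne⟩
        rcases Nat.lt_succ_iff_lt_or_eq.mp ht with h1 | h1
        · exact h1
        · subst h1; exact absurd hm hne
      have h1 := ih this
      rw [hm]
      intro h2
      apply h1
      linarith
    · have hod := hodd (n + m)
      obtain ⟨c, hc⟩ := hod
      intro h2
      rcases hb : π m with _ | _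
      · have hb' : π' m = true := by
          rcases hb2 : π' m with _ | _
          · exact absurd (hb.trans hb2.symm) hm
          · rfl
        rw [hb, hb'] at h2
        simp only [Bool.false_eq_true, if_false, if_true] at h2
        omega
      · have hb' : π' m = false := by
          rcases hb2 : π' m with _ | _
          · rfl
          · exact absurd (hb.trans hb2.symm) hm
        rw [hb, hb'] at h2
        simp only [Bool.false_eq_true, if_false, if_true] at h2
        omega

lemma D_add (d D : ℕ → ℤ) (hD : ∀ n, D (n + 1) = 4 * D n + max (2 * d n) (d (n + 1)))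
    (n m : ℕ) :
    D (n + m) = 4 ^ m * D n +
      Rr d (fun t => decide (0 < d (n + t + 1) - 2 * d (n + t))) n m := by
  induction m with
  | zero => simp [Rr]
  | succ m ih =>
    rw [← add_assoc, hD (n + m), ih]
    simp only [Rr]
    by_cases h : 0 < d (n + m + 1) - 2 * d (n + m)
    · rw [max_eq_right (by omega)]
      simp only [h, decide_true, if_true]
      ring
    · rw [max_eq_left (by omega)]
      simp only [h, decide_false, Bool.false_eq_true, if_false]
      ring

/-- **Core theorem**: `D` is not covered by finitely many sequences of a finite-dimensional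
shift-stable space. -/
theorem core (d D : ℕ → ℤ) (hd : ∀ n, d (n + 3) = d (n + 2) + 4 * d n)
    (hodd : ∀ n, Odd (d (n + 1) - 2 * d n))
    (hD : ∀ n, D (n + 1) = 4 * D n + max (2 * d n) (d (n + 1)))
    (r : ℕ) (L : Fin r → ℕ → ℂ) (ι : ℕ → Fin r) (V : Submodule ℂ (ℕ → ℂ))
    [FiniteDimensional ℂ V] (hV : ∀ x ∈ V, shift x ∈ V) (hL : ∀ i, L i ∈ V)
    (hdV : (fun n => (d n : ℂ)) ∈ V) (hcov : ∀ n, (D n : ℂ) = L (ι n) n) : False := by
  classical
  set w : ℕ → ℤ := fun n => d (n + 1) - 2 * d n with hwdef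
  have hw : ∀ n, w (n + 2) = - w (n + 1) - 2 * w n := by
    intro n
    simp only [hwdef]
    rw [show n + 2 + 1 = n + 3 from rfl, show n + 1 + 1 = n + 2 from rfl, hd n]
    ring
  have hne : ∀ n, w n ≠ 0 := by
    intro n h
    have := hodd n
    change Odd (w n) at this
    rw [h] at this
    simp at this
  obtain ⟨M, hM1, hM⟩ := exists_modulus (V := V)
  -- number of positions
  set R : ℕ := r * r + 1 with hR
  -- K P for all P
  have hK : ∀ P : ℕ, 1 ≤ P → ∃ K : ℕ, ∀ N : ℕ,
      ¬ ∀ n, N ≤ n → n < N + K → (0 < w (n + P) ↔ 0 < w n) :=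
    fun P hP => sign_aperiodic hw hne P hP
  choose! Kf hKf using hK
  set m : ℕ := ∑ P ∈ range (M * R + 1), Kf P with hm
  have hmK : ∀ P, 1 ≤ P → P ≤ M * R → Kf P ≤ m := by
    intro P _ hP
    exact Finset.single_le_sum (f := Kf) (fun _ _ => Nat.zero_le _)
      (Finset.mem_range.mpr (by omega))
  set sgn : ℕ → Bool := fun n => decide (0 < w n) with hsgn
  -- colouring
  let len : ℕ := M * R + m + 1
  let C : ℕ → (Fin len → Fin r × Bool) := fun n t => (ι (M * n + t), sgn (M * n + t))
  obtain ⟨a, ha, b, c, hc⟩ := Combinatorics.exists_mono_homothetic_copy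
    (range (Module.finrank ℂ V + 1)) C
  have hcol : ∀ s, s ≤ Module.finrank ℂ V → ∀ t, t < len →
      ι (M * (a * s + b) + t) = ι (M * b + t) ∧ sgn (M * (a * s + b) + t) = sgn (M * b + t) := by
    intro s hs t ht
    have h1 := hc s (Finset.mem_range.mpr (by omega))
    have h0 := hc 0 (Finset.mem_range.mpr (by omega))
    have h2 : C (a • s + b) ⟨t, ht⟩ = C (a • 0 + b) ⟨t, ht⟩ := by rw [h1, h0]
    simp only [C, smul_eq_mul, mul_zero, zero_add, Prod.mk.injEq] at h2
    exact h2
  -- the sequences in V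
  have hRV : ∀ (π : ℕ → Bool) (m : ℕ), (fun n => (Rr d π n m : ℂ)) ∈ V := by
    intro π m
    induction m with
    | zero =>
      have : (fun n => ((Rr d π n 0 : ℤ) : ℂ)) = 0 := by
        funext n; simp [Rr]
      rw [this]; exact V.zero_mem
    | succ m ih =>
      have hs : ∀ k, (fun n => (d (n + k) : ℂ)) ∈ V := by
        intro k
        have := shift_pow_mem hV k hdV
        have h2 : (shift ^ k) (fun n => (d n : ℂ)) = fun n => (d (n + k) : ℂ) := by
          funext n; rw [shift_pow_apply]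
        rwa [h2] at this
      have : (fun n => ((Rr d π n (m + 1) : ℤ) : ℂ)) =
          (4 : ℂ) • (fun n => ((Rr d π n m : ℤ) : ℂ)) +
            (if π m then (fun n => (d (n + (m + 1)) : ℂ)) else
              (2 : ℂ) • (fun n => (d (n + m) : ℂ))) := by
        funext n
        simp only [Rr, Pi.add_apply, Pi.smul_apply, smul_eq_mul]
        by_cases hb : π m = true
        · simp only [hb, if_true]; push_cast; rw [add_assoc]
        · simp only [hb, if_false, Bool.false_eq_true, Pi.smul_apply, smul_eq_mul]; push_cast; rfl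
      rw [this]
      refine V.add_mem (V.smul_mem _ ih) ?_
      split_ifs
      · exact hs (m + 1)
      · exact V.smul_mem _ (hs m)
  -- for each k < R
  let π : ℕ → ℕ → Bool := fun k t => sgn (M * b + M * k + t)
  let X : ℕ → ℕ → ℂ := fun k => (shift ^ m) (L (ι (M * b + (M * k + m)))) -
    ((4 : ℂ) ^ m) • L (ι (M * b + M * k)) - (fun n => (Rr d (π k) n m : ℂ))
  have hXV : ∀ k, X k ∈ V := fun k =>
    V.sub_mem (V.sub_mem (shift_pow_mem hV m (hL _)) (V.smul_mem _ (hL _))) (hRV _ _)
  have hXapply : ∀ k n, X k n = L (ι (M * b + (M * k + m))) (n + m) -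
      (4 : ℂ) ^ m * L (ι (M * b + M * k)) n - (Rr d (π k) n m : ℂ) := by
    intro k n
    simp only [X, Pi.sub_apply, Pi.smul_apply, smul_eq_mul]
    rw [shift_pow_apply]
  have hX0 : ∀ k, k < R → ∀ s < Module.finrank ℂ V,
      X k ((M * b + M * k) + (M * a) * s) = 0 := by
    intro k hk s hs
    have hkM : M * k + m < len := by
      have : M * k ≤ M * R := Nat.mul_le_mul_left _ (by omega)
      simp only [len]
      omega
    set n := (M * b + M * k) + (M * a) * s with hn
    have hn1 : M * (a * s + b) + M * k = n := by rw [hn]; ring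
    have hn2 : M * (a * s + b) + (M * k + m) = n + m := by rw [hn]; ring
    have e1 := (hcol s hs.le (M * k) (by omega)).1
    have e2 := (hcol s hs.le (M * k + m) hkM).1
    rw [hn1] at e1
    rw [hn2] at e2
    rw [hXapply, ← e1, ← e2, ← hcov, ← hcov, D_add d D hD n m]
    have : Rr d (fun t => decide (0 < d (n + t + 1) - 2 * d (n + t))) n m = Rr d (π k) n m := by
      apply Rr_congr
      intro t ht
      have e3 := (hcol s hs.le (M * k + t) (by omega)).2
      rw [show M * (a * s + b) + (M * k + t) = n + t by rw [hn]; ring] at e3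
      simp only [π]
      rw [show M * b + M * k + t = M * b + (M * k + t) by ring, ← e3]
    rw [this]
    push_cast
    ring
  have hX1 : ∀ k, k < R → ∀ s, X k ((M * b + M * k) + M * s) = 0 := by
    intro k hk s
    have h1 := vanish_of_long hV (hXV k) (M * a) (M * b + M * k) (hX0 k hk)
    have h2 : ∀ s, (shift ^ (M * b + M * k)) (X k) (M * a * s) = 0 := by
      intro s
      rw [shift_pow_apply, add_comm]
      exact h1 s
    have h3 := hM (M * a) (Nat.mul_pos hM1 ha) _ (shift_pow_mem hV (M * b + M * k) (hXV k)) h2 s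
    rw [shift_pow_apply, add_comm] at h3
    exact h3
  -- pigeonhole
  let f : Fin R → Fin r × Fin r := fun k => (ι (M * b + (M * k + m)), ι (M * b + M * k))
  have hcard : Fintype.card (Fin r × Fin r) < Fintype.card (Fin R) := by
    simp [hR]
  obtain ⟨k, k', hkk', hf⟩ := Fintype.exists_ne_map_eq_of_card_lt f hcard
  simp only [f, Prod.mk.injEq] at hf
  -- patterns differ
  have hpat : ∀ k k' : ℕ, k < k' → k' < R → ∃ t < m, π k t ≠ π k' t := by
    intro k k' hkk hk'
    by_contra hcon
    push Not at hcon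
    set P := M * (k' - k) with hPdef
    have hP1 : 1 ≤ P := Nat.mul_pos hM1 (by omega)
    have hP2 : P ≤ M * R := Nat.mul_le_mul_left _ (by omega)
    refine hKf P hP1 (M * b + M * k) ?_
    intro n hn1 hn2
    obtain ⟨t, rfl⟩ := Nat.exists_eq_add_of_le hn1
    have ht : t < m := by
      have := hmK P hP1 hP2
      omega
    have h1 := hcon t ht
    simp only [π, hsgn] at h1
    have h2 : M * b + M * k' + t = M * b + M * k + t + P := by
      rw [hPdef]
      obtain ⟨e, rfl⟩ := Nat.exists_eq_add_of_lt hkk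
      rw [show k + e + 1 - k = e + 1 by omega]
      ring
    rw [h2] at h1
    exact (decide_eq_decide.mp h1).symm
  have hfinal : ∀ k k' : ℕ, k < R → k' < R →
      ι (M * b + (M * k + m)) = ι (M * b + (M * k' + m)) → ι (M * b + M * k) = ι (M * b + M * k') →
      (∃ t < m, π k t ≠ π k' t) → False := by
    intro k k' hk hk' h1 h2 h3
    have e1 := hX1 k hk k'
    have e2 := hX1 k' hk' k
    rw [hXapply] at e1 e2
    rw [show M * b + M * k' + M * k = M * b + M * k + M * k' by ring] at e2
    rw [← h1, ← h2] at e2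
    have e3 : ((Rr d (π k) (M * b + M * k + M * k') m : ℤ) : ℂ) =
        ((Rr d (π k') (M * b + M * k + M * k') m : ℤ) : ℂ) := by
      have := e1.trans e2.symm
      linear_combination -this
    exact Rr_ne d hodd _ m h3 (by exact_mod_cast e3)
  rcases lt_or_gt_of_ne (fun h => hkk' (Fin.ext h) : (k : ℕ) ≠ k') with hlt | hlt
  · exact hfinal k k' k.2 k'.2 hf.1 hf.2 (hpat k k' hlt k'.2)
  · exact hfinal k' k k'.2 k.2 hf.1.symm hf.2.symm (hpat k' k hlt k.2)

end Pool.Agent.Lib.MP_3d9fc2_ag
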